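import Pool.Agent.R684.GP.Stm

set_option autoImplicit false

namespace Pool.Agent.R221.GPCO

open Pool.Agent.R684.GP

theorem finite_hom (G P : Type) [Group G] [Group.FG G] [Group P] [Finite P] :
    Finite (G →* P) := by
  obtain ⟨S, hS⟩ := Group.fg_def.1 (inferInstance : Group.FG G)
  refine Finite.of_injective (fun (f : G →* P) (s : S) => f s) ?_
  intro f g hfg
  refine MonoidHom.eq_of_eqOn_dense hS ?_
  intro x hx
  exact congrFun hfg ⟨x, hx⟩

theorem t_CO : S_CO := by
  intro G _ _ i
  constructor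
  · constructor
    intro n hn g
    rw [core, Subgroup.mem_sInf] at hn ⊢
    intro N hN
    exact hN.1.conj_mem n (hn N hN) g
  · haveI : ∀ n : ℕ, Finite (G →* Equiv.Perm (Fin n)) := fun n => finite_hom G _
    let ι := Σ n : Fin (i + 1), (G →* Equiv.Perm (Fin n))
    let M : Subgroup G := ⨅ p : ι, p.2.ker
    haveI : ∀ p : ι, (p.2.ker).FiniteIndex := fun p => Subgroup.finiteIndex_ker p.2
    haveI hM : M.FiniteIndex := Subgroup.finiteIndex_iInf (fun p : ι => inferInstance)
    have hle : M ≤ core G i := by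
      intro x hx
      rw [core, Subgroup.mem_sInf]
      rintro N ⟨hN, hN0, hNi⟩
      haveI := hN
      haveI : N.FiniteIndex := ⟨hN0⟩
      haveI : Finite (G ⧸ N) := inferInstance
      let e : (G ⧸ N) ≃ Fin N.index := Finite.equivFinOfCardEq rfl
      let f : G →* Equiv.Perm (Fin N.index) :=
        (e.permCongrHom).toMonoidHom.comp (MulAction.toPermHom G (G ⧸ N))
      have hxf : x ∈ f.ker := by
        have := (Subgroup.mem_iInf.1 hx) (⟨⟨N.index, by omega⟩, f⟩ : ι)
        exact this
      have h1 : MulAction.toPermHom G (G ⧸ N) x = 1 := by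
        have h2 : e.permCongrHom (MulAction.toPermHom G (G ⧸ N) x) = 1 := hxf
        exact (map_eq_one_iff _ (e.permCongrHom).injective).1 h2
      have h3 : (MulAction.toPermHom G (G ⧸ N) x) ((1 : G) : G ⧸ N) = ((1 : G) : G ⧸ N) := by
        rw [h1]; rfl
      have h4 : ((x * 1 : G) : G ⧸ N) = ((1 : G) : G ⧸ N) := h3
      rw [mul_one] at h4
      exact (QuotientGroup.eq_one_iff x).1 h4
    exact (Subgroup.finiteIndex_of_le hle).index_ne_zero

end Pool.Agent.R221.GPCO
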